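import Pool.Agent.H174.GM.Stmts

/-! GM DEG (by helper734): the degree bound for `psi`. -/

set_option autoImplicit false

namespace Pool.Agent.H734.GM174

open Finset Pool.Agent.H174.GM

variable {k : ℕ}

theorem deg_one_sub (i : Fin k) (f : MvPolynomial (Fin k) ℚ) :
    (1 - f).degreeOf i ≤ f.degreeOf i := by
  have e : 1 - f = MvPolynomial.C 1 + MvPolynomial.C (-1) * f := by
    rw [map_one, map_neg, map_one]
    ring
  rw [e]
  refine (MvPolynomial.degreeOf_add_le i _ _).trans
    (max_le ?_ (MvPolynomial.degreeOf_C_mul_le _ _ _))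
  rw [MvPolynomial.degreeOf_C]
  exact Nat.zero_le _

theorem deg_uu (i : Fin k) (f : MvPolynomial (Fin k) ℚ) :
    (uu f).degreeOf i ≤ 2 * f.degreeOf i := by
  unfold uu
  have h1 := MvPolynomial.degreeOf_mul_le i f (1 - f)
  have h2 := deg_one_sub i f
  omega

theorem deg_mm (i : Fin k) (u y : MvPolynomial (Fin k) ℚ) :
    (mm u y).degreeOf i ≤ u.degreeOf i + 2 * y.degreeOf i := by
  unfold mm
  have h1 := MvPolynomial.degreeOf_mul_le i u ((1 - y) ^ 2)
  have h2 := MvPolynomial.degreeOf_pow_le i (1 - y) 2
  have h3 := deg_one_sub i y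
  refine (MvPolynomial.degreeOf_add_le i _ _).trans (max_le (by omega) (by omega))

theorem deg_zsmul (i : Fin k) (n : ℤ) (f : MvPolynomial (Fin k) ℚ) :
    (n • f).degreeOf i ≤ f.degreeOf i := by
  have e : n • f = MvPolynomial.C (n : ℚ) * f := by
    rw [zsmul_eq_mul, map_intCast]
  rw [e]
  exact MvPolynomial.degreeOf_C_mul_le _ _ _

/-- the number of the pairs which contain `s` -/
theorem card_pairs (s : Fin k) :
    ((pairs k).filter fun p => p.1 = s ∨ p.2 = s).card + 1 ≤ k := by
  have h1 : ((pairs k).filter fun p => p.1 = s ∨ p.2 = s).card ≤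
      ((univ : Finset (Fin k)).erase s).card := by
    apply Finset.card_le_card_of_injOn (fun p => if p.1 = s then p.2 else p.1)
    · intro p hp
      rw [Finset.mem_coe, Finset.mem_filter] at hp
      obtain ⟨hp1, hp2⟩ := hp
      rw [pairs, Finset.mem_filter] at hp1
      rw [Finset.mem_coe, Finset.mem_erase]
      refine ⟨?_, Finset.mem_univ _⟩
      show (if p.1 = s then p.2 else p.1) ≠ s
      by_cases h : p.1 = s
      · rw [if_pos h]
        rw [← h]
        exact hp1.2.ne'
      · rw [if_neg h]
        exact h
    · intro p hp p' hp' he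
      rw [Finset.mem_coe, Finset.mem_filter] at hp hp'
      obtain ⟨hp1, hp2⟩ := hp
      obtain ⟨hp1', hp2'⟩ := hp'
      rw [pairs, Finset.mem_filter] at hp1 hp1'
      have hlt := hp1.2
      have hlt' := hp1'.2
      by_cases h : p.1 = s
      · by_cases h' : p'.1 = s
        · simp only [h, h', if_true] at he
          exact Prod.ext (h.trans h'.symm) he
        · exfalso
          simp only [h, h', if_true, if_false] at he
          have h2' : p'.2 = s := by
            rcases hp2' with h3 | h3
            · exact absurd h3 h'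
            · exact h3
          rw [h, he] at hlt
          rw [h2'] at hlt'
          exact absurd hlt (lt_asymm hlt')
      · have h2 : p.2 = s := by
          rcases hp2 with h3 | h3
          · exact absurd h3 h
          · exact h3
        by_cases h' : p'.1 = s
        · exfalso
          simp only [h, h', if_true, if_false] at he
          rw [h2, he] at hlt
          rw [h'] at hlt'
          exact absurd hlt (lt_asymm hlt')
        · have h2' : p'.2 = s := by
            rcases hp2' with h3 | h3
            · exact absurd h3 h'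
            · exact h3
          simp only [h, h', if_false] at he
          exact Prod.ext he (h2.trans h2'.symm)
  rw [Finset.card_erase_of_mem (Finset.mem_univ _), Finset.card_univ, Fintype.card_fin] at h1
  have := s.2
  omega

/-- the degree of a single term -/
theorem deg_ff (i s : Fin k) (Y : Fin k → MvPolynomial (Fin k) ℚ)
    (h0 : ∀ j, j ≠ s → (Y j).degreeOf i = 0) (h1 : (Y s).degreeOf i ≤ 1) :
    (ff (st k) Y).degreeOf i + 2 ≤ 3 * k := by
  unfold ff
  have hs := s.2
  -- the power
  have hp : (∏ j, Y j ^ st k j).degreeOf i ≤ s.1 + 1 := by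
    refine (MvPolynomial.degreeOf_prod_le i _ _).trans ?_
    rw [← Finset.add_sum_erase _ _ (Finset.mem_univ s)]
    have h2 : ∑ j ∈ univ.erase s, (Y j ^ st k j).degreeOf i = 0 := by
      apply Finset.sum_eq_zero
      intro j hj
      have h3 := MvPolynomial.degreeOf_pow_le i (Y j) (st k j)
      rw [h0 j (Finset.ne_of_mem_erase hj), mul_zero] at h3
      omega
    rw [h2, add_zero]
    refine (MvPolynomial.degreeOf_pow_le i (Y s) (st k s)).trans ?_
    calc st k s * (Y s).degreeOf i ≤ st k s * 1 := Nat.mul_le_mul_left _ h1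
      _ = s.1 + 1 := by rw [mul_one]; rfl
  -- the pairs
  have hc : (cc Y).degreeOf i ≤ 2 * ((pairs k).filter fun p => p.1 = s ∨ p.2 = s).card := by
    unfold cc
    refine (MvPolynomial.degreeOf_prod_le i _ _).trans ?_
    have h2 : ∀ p ∈ pairs k, (mm (uu (Y p.1)) (Y p.2)).degreeOf i ≤
        if p.1 = s ∨ p.2 = s then 2 else 0 := by
      intro p hp
      rw [pairs, Finset.mem_filter] at hp
      have h3 := deg_mm i (uu (Y p.1)) (Y p.2)
      have h4 := deg_uu i (Y p.1)
      by_cases h5 : p.1 = s
      · have h6 : p.2 ≠ s := by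
          rw [← h5]
          exact hp.2.ne'
        rw [if_pos (Or.inl h5)]
        rw [h0 _ h6] at h3
        rw [h5] at h3 h4 ⊢
        omega
      · rw [h0 _ h5] at h4
        by_cases h6 : p.2 = s
        · rw [if_pos (Or.inr h6)]
          rw [h6] at h3 ⊢
          omega
        · rw [if_neg (by
            rintro (h7 | h7)
            · exact h5 h7
            · exact h6 h7)]
          rw [h0 _ h6] at h3
          omega
    refine (Finset.sum_le_sum h2).trans ?_
    rw [← Finset.sum_filter, Finset.sum_const, smul_eq_mul, mul_comm]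
  have h2 := card_pairs s
  have h3 := MvPolynomial.degreeOf_mul_le i (∏ j, Y j ^ st k j) (cc Y)
  omega

theorem degr : Pool.Agent.H174.GM.S_DEG := by
  intro k i
  have hk := i.2
  suffices h : (psi (fun i => (MvPolynomial.X i : MvPolynomial (Fin k) ℚ))).degreeOf i ≤
      3 * k - 2 by omega
  unfold psi br
  refine (MvPolynomial.degreeOf_sum_le i _ _).trans (Finset.sup_le ?_)
  intro ε _
  refine (deg_zsmul i _ _).trans ?_
  unfold aa
  refine (MvPolynomial.degreeOf_sum_le i _ _).trans (Finset.sup_le ?_)
  intro σ _
  refine (deg_zsmul i _ _).trans ?_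
  have h1 := deg_ff i (σ.symm i)
    (flp ε (fun i => (MvPolynomial.X i : MvPolynomial (Fin k) ℚ)) ∘ σ) (by
      intro j hj
      have h2 : i ≠ σ j := by
        intro h3
        apply hj
        rw [h3, Equiv.symm_apply_apply]
      have h3 : (flp ε (fun i => (MvPolynomial.X i : MvPolynomial (Fin k) ℚ)) (σ j)).degreeOf i ≤
          (MvPolynomial.X (σ j) : MvPolynomial (Fin k) ℚ).degreeOf i := by
        unfold flp
        by_cases h4 : ε (σ j)
        · rw [if_pos h4]
          exact deg_one_sub i _
        · rw [if_neg h4]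
      rw [MvPolynomial.degreeOf_X_of_ne h2] at h3
      exact Nat.le_zero.1 h3) (by
      have h3 : (flp ε (fun i => (MvPolynomial.X i : MvPolynomial (Fin k) ℚ))
          (σ (σ.symm i))).degreeOf i ≤
          (MvPolynomial.X (σ (σ.symm i)) : MvPolynomial (Fin k) ℚ).degreeOf i := by
        unfold flp
        by_cases h4 : ε (σ (σ.symm i))
        · rw [if_pos h4]
          exact deg_one_sub i _
        · rw [if_neg h4]
      rw [Equiv.apply_symm_apply, MvPolynomial.degreeOf_X_self] at h3
      have h4 : (flp ε (fun i => (MvPolynomial.X i : MvPolynomial (Fin k) ℚ)) ∘ σ)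
          (σ.symm i) = flp ε (fun i => (MvPolynomial.X i : MvPolynomial (Fin k) ℚ)) i := by
        rw [Function.comp_apply, Equiv.apply_symm_apply]
      rw [h4]
      exact h3)
  omega

end Pool.Agent.H734.GM174
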